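import Pool.Agent.Helper37_BSig.Stmts

/-!
# C10a: comparison of `Tup` and `TupE`
-/

namespace Pool.Agent.BSig.H60

open Filter Pool.Agent.BSig

theorem pr_natCast (a b : ℕ) : pr (a : MM) (b : MM) = ((npr a b : ℕ) : MM) := by
  rw [pr, npr]; push_cast; ring

theorem mem_nset_nat (s : Finset ℕ) (k : ℕ) : (nset s).testBit k = true ↔ k ∈ s := by
  rw [← Nat.mem_bitIndices, ← List.mem_toFinset, nset, Finset.toFinset_bitIndices_sum_two_pow]

theorem mem_natCast (k m : ℕ) : Mem (k : MM) (m : MM) ↔ m.testBit k = true := by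
  rw [natCast_mk, natCast_mk, mem_mk]
  constructor
  · intro h
    exact h.exists.choose_spec
  · intro h
    exact Eventually.of_forall fun _ => h

theorem mem_nset (s : Finset ℕ) (u : MM) : Mem u ((nset s : ℕ) : MM) ↔ ∃ k ∈ s, u = (k : MM) := by
  constructor
  · intro h
    obtain ⟨k, -, rfl⟩ := lt_natCast_iff.1 (mem_lt h)
    rw [mem_natCast, mem_nset_nat] at h
    exact ⟨k, h, rfl⟩
  · rintro ⟨k, hk, rfl⟩
    rw [mem_natCast, mem_nset_nat]
    exact hk

theorem tow_val {T : MM} (hT : TowOK T) (j : ℕ) (z : MM) (h : Mem (pr (j : MM) z) T) : z = aa j := by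
  induction j generalizing z with
  | zero =>
    rcases hT _ (mem_lt h).le h with h1 | ⟨j, -, z', -, h1, -⟩
    · rw [pr_inj] at h1; exact h1.2
    · rw [pr_inj] at h1
      exfalso
      have h2 := h1.1
      have h3 : (0 : MM) < j + 1 :=
        (PAExp.discrete _ _).2 (by rw [zero_add]; exact le_add_left' _ _)
      rw [← h2, Nat.cast_zero] at h3
      exact lt_irrefl _ h3
  | succ j ih =>
    rcases hT _ (mem_lt h).le h with h1 | ⟨j', -, z', -, h1, h2⟩
    · rw [pr_inj] at h1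
      exfalso
      have h3 := h1.1
      rw [← Nat.cast_zero, natCast_inj] at h3
      omega
    · rw [pr_inj] at h1
      have h3 : (j : MM) = j' := by
        have := h1.1
        push_cast at this
        exact PAExp.add_cancel' _ _ _ this
      rw [← h3] at h2
      rw [h1.2, ih z' h2, aa_succ]

theorem tupCmp_proof : TupCmp := by
  intro φ _ x D i0 T X w hFx hT hX
  have hC : ∀ e : MM, Mem e ((nset (D.C.image fun e => npr e.1 (npr e.2.1 (npr e.2.2.1 e.2.2.2))) :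
      ℕ) : MM) ↔ ∃ c ∈ D.C, e = pr (c.1 : MM) (pr (c.2.1 : MM) (pr (c.2.2.1 : MM) (c.2.2.2 : MM))) := by
    intro e
    rw [mem_nset]
    constructor
    · rintro ⟨k, hk, rfl⟩
      rw [Finset.mem_image] at hk
      obtain ⟨c, hc, rfl⟩ := hk
      exact ⟨c, hc, by rw [pr_natCast, pr_natCast, pr_natCast]⟩
    · rintro ⟨c, hc, rfl⟩
      exact ⟨_, Finset.mem_image_of_mem _ hc, by rw [pr_natCast, pr_natCast, pr_natCast]⟩
  have hF : ∀ p j : MM, Mem (pr p j) ((nset (D.Fx.image fun q => npr q.1 q.2) : ℕ) : MM) ↔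
      ∃ q ∈ D.Fx, p = (q.1 : MM) ∧ j = (q.2 : MM) := by
    intro p j
    rw [mem_nset]
    constructor
    · rintro ⟨k, hk, h⟩
      rw [Finset.mem_image] at hk
      obtain ⟨c, hc, rfl⟩ := hk
      rw [← pr_natCast, pr_inj] at h
      exact ⟨c, hc, h⟩
    · rintro ⟨c, hc, rfl, rfl⟩
      exact ⟨_, Finset.mem_image_of_mem _ hc, pr_natCast _ _⟩
  have hFF : FixFree w X ((nset (D.Fx.image fun q => npr q.1 q.2) : ℕ) : MM) (i0 : MM) ↔
      ∀ p z, Mem (pr p z) w → (∀ q ∈ D.Fx, p = (q.1 : MM) → z = x q.2) ∧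
        ((∀ q ∈ D.Fx, p ≠ (q.1 : MM)) → ∀ j < i0, z ≠ x j) := by
    constructor
    · intro h p z hpz
      have hlt := (mem_lt hpz).le
      obtain ⟨h1, h2⟩ := h p ((le_pr_left _ _).trans hlt) z ((le_pr_right _ _).trans hlt) hpz
      refine ⟨?_, ?_⟩
      · intro q hq hp
        have h3 := (hF p (q.2 : MM)).2 ⟨q, hq, hp, rfl⟩
        have h4 := h1 _ ((le_pr_right _ _).trans (mem_lt h3).le) h3
        exact (hX q.2 (hFx q hq) z).1 h4
      · intro hq j hj hz
        refine h2 ?_ (j : MM) (natCast_lt.2 hj) ((hX j hj z).2 hz)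
        intro j' _ h3
        obtain ⟨q, hq', hp, -⟩ := (hF p j').1 h3
        exact hq q hq' hp
    · intro h p _ z _ hpz
      obtain ⟨h1, h2⟩ := h p z hpz
      refine ⟨?_, ?_⟩
      · intro j _ h3
        obtain ⟨q, hq, hp, rfl⟩ := (hF p j).1 h3
        exact (hX q.2 (hFx q hq) z).2 (h1 q hq hp)
      · intro h3 j hj h4
        obtain ⟨k, hk, rfl⟩ := lt_natCast_iff.1 hj
        refine h2 ?_ k hk ((hX k hk z).1 h4)
        intro q hq hp
        have h5 := (hF p (q.2 : MM)).2 ⟨q, hq, hp, rfl⟩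
        exact h3 _ ((le_pr_right _ _).trans (mem_lt h5).le) h5
  constructor
  · rintro ⟨h1, h2, α, -, h3, t, ht, h4, h5⟩
    have hα := tow_val hT _ _ h3
    subst hα
    have h6 : ∀ e ∈ D.C, Mem (pr (e.1 : MM) (aa e.1)) T ∧ ∃ s, s ≤ pow2 (2 * w + 2) ∧
        (LitSub s w (nset D.Sg : ℕ) e.2.1 e.2.2.1 ∧
      ¬ Cfl s s ∧ Kil φ (aa e.1) e.1 e.2.2.2 t s) := by
      intro e he
      have h7 := (hC _).2 ⟨e, he, rfl⟩
      obtain ⟨j, -, lo, -, hi, -, q, -, h8, β, -, h9, s, hs, h10⟩ := h5 _ (mem_lt h7).le h7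
      rw [pr_inj, pr_inj, pr_inj] at h8
      obtain ⟨rfl, rfl, rfl, rfl⟩ := h8
      have hβ := tow_val hT _ _ h9
      subst hβ
      exact ⟨h9, s, hs, h10⟩
    exact ⟨h3, fun e he => (h6 e he).1, h1, hFF.1 h2, t, ht, h4, fun e he => (h6 e he).2⟩
  · rintro ⟨h1, h2, h3, h4, t, ht, h5, h6⟩
    refine ⟨h3, hFF.2 h4, aa D.l, (le_pr_right _ _).trans (mem_lt h1).le, h1, t, ht, h5, ?_⟩
    intro e _ he
    obtain ⟨c, hc, rfl⟩ := (hC e).1 he
    obtain ⟨s, hs, h7⟩ := h6 c hc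
    refine ⟨c.1, le_pr_left _ _, c.2.1, (le_pr_left _ _).trans (le_pr_right _ _), c.2.2.1,
      ((le_pr_left _ _).trans (le_pr_right _ _)).trans (le_pr_right _ _), c.2.2.2,
      ((le_pr_right _ _).trans (le_pr_right _ _)).trans (le_pr_right _ _), rfl,
      aa c.1, (le_pr_right _ _).trans (mem_lt (h2 c hc)).le, h2 c hc, s, hs, h7⟩

end Pool.Agent.BSig.H60
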